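import Pool.Agent.H.MP_a74ba6_co.Main

namespace Pool.Agent.Results.MP_a74ba6_co.Half

theorem result (r : ℕ) (hr : 3 ≤ r) (V : Type) [Fintype V] (G : SimpleGraph V)
    [DecidableRel G.Adj] (hG : G.IsRegularOfDegree r) (D : Digraph V)
    (hD : ∀ u v, G.Adj u v ↔ D.Adj u v ∨ D.Adj v u) (hD' : ∀ u v, D.Adj u v → ¬ D.Adj v u) :
    ∃ S : Finset V, (∀ v, v ∉ S → ∃ u ∈ S, D.Adj u v) ∧ 2 * S.card ≤ Fintype.card V := by
  classical
  refine Pool.Agent.H.MP_a74ba6_co.main hD hD' r hr fun v => ?_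
  rw [← hG v, ← G.card_neighborFinset_eq_degree, G.neighborFinset_eq_filter]

end Pool.Agent.Results.MP_a74ba6_co.Half
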